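import Pool.Agent.H.MP_311ff9_lc.D

set_option autoImplicit false

namespace Pool.Agent.Results.MP_311ff9_lc.Hard

open Pool.Agent.Lib.CX Pool.Agent.H.MP_311ff9_lc Pool.Agent.Lib.helper29.CXQ

theorem result : ∀ p : ENNReal, 1 ≤ p → AP DM3 (MaxTri p) ∧ (APXHard DM3 → APXHard (MaxTri p)) := by
  classical
  intro p hp
  have := Fact.mk hp
  obtain ⟨c, c1, h⟩ := main p
  have r1 := pt_red (p = ⊤)
  refine ⟨⟨c, fun z => red (p = ⊤) z.2, fun z => back z.2.1 z.2.2, by exact_mod_cast c1, .of (r1.comp PT.snd'),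
    .of (pt_back.comp PT.snd'), fun r hr x hx => ?_⟩, fun H A hA => ?_⟩
  · obtain ⟨a, b, d⟩ := h r (by exact_mod_cast hr) x hx
    exact ⟨a, fun _ => b, d⟩
  obtain ⟨e, f, g, e1, hf, hg, H⟩ := H A hA
  have hk : PT fun r : ℚ => 1 + c * (r - 1) := by fun_prop
  have c2 : (1 : ℚ) ≤ c := by exact_mod_cast c1
  refine ⟨e * c, fun z => red (p = ⊤) (f (1 + c * (z.1 - 1), z.2)),
    fun z => g (1 + c * (z.1 - 1), z.2.1, back (f (1 + c * (z.1 - 1), z.2.1)) z.2.2),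
    one_le_mul_of_one_le_of_one_le e1 (by exact_mod_cast c1), .post r1 (hf.comp (.of PT.snd') hk),
    hg.comp (.pair (.of PT.snd'.fst) (.post pt_back (.pair (hf.comp (.of PT.snd'.fst) hk) (.of PT.snd'.snd)))) hk,
    fun r hr x hx => ?_⟩
  obtain ⟨a, -, b⟩ := H (1 + c * (r - 1)) (by nlinarith) x hx
  obtain ⟨a', b', d⟩ := h r (by exact_mod_cast hr) _ a
  refine ⟨a', fun _ => b', fun y hy => ⟨(b _ (d y hy).1).1, fun w => ?_⟩⟩
  have := (b _ (d y hy).1).2 (by push_cast; exact (d y hy).2 w)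
  push_cast at this
  rwa [add_sub_cancel_left, ← mul_assoc] at this

end Pool.Agent.Results.MP_311ff9_lc.Hard
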